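import Pool.Agent.N356.SP.Defs

set_option autoImplicit false

/-! LS2c (helper42): antipodal triples against each other. -/

namespace Pool.Agent.N42.LS

open Finset Pool.Agent.N356.SP

variable {Γ : Type*} [AddCommGroup Γ]

theorem AA_inner {C : Finset Γ} (hneg : ∀ s ∈ C, -s ∈ C)
    (I : Multiset Γ → ℝ) (Iz : ∀ U : Multiset Γ, U.sum ≠ 0 → I U = 0)
    (hA : ∀ F : Multiset Γ → ℝ, ∑ T ∈ TA C, F (ms T) =
      3 * (∑ c ∈ C, ∑ x ∈ C, F {c, x, -x}) - 3 * ∑ c ∈ C, F {c, c, -c})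
    (U : Multiset Γ) (c : Γ) (hc : c ∈ C) (hU : U.sum = c) :
    ∑ T' ∈ TA C, I (U + ms T') = 3 * (∑ y ∈ C, I (U + {-c, y, -y})) - 3 * I (U + {-c, -c, c}) := by
  rw [hA (fun V => I (U + V))]
  have h1 : ∑ d ∈ C, ∑ y ∈ C, I (U + {d, y, -y}) = ∑ y ∈ C, I (U + {-c, y, -y}) := by
    apply Finset.sum_eq_single_of_mem (-c) (hneg c hc)
    intro d _ hd
    refine Finset.sum_eq_zero fun y _ => Iz _ ?_
    have e : (U + {d, y, -y}).sum = c + d := by
      rw [Multiset.sum_add, hU]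
      simp
    rw [e]
    intro h
    exact hd (eq_neg_of_add_eq_zero_right h)
  have h2 : ∑ d ∈ C, I (U + {d, d, -d}) = I (U + {-c, -c, c}) := by
    have h3 : ∑ d ∈ C, I (U + {d, d, -d}) = I (U + {-c, -c, - -c}) := by
      apply Finset.sum_eq_single_of_mem (-c) (hneg c hc)
      intro d _ hd
      apply Iz
      have e : (U + {d, d, -d}).sum = c + d := by
        rw [Multiset.sum_add, hU]
        simp
      rw [e]
      intro h
      exact hd (eq_neg_of_add_eq_zero_right h)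
    rw [h3, neg_neg]
  rw [h1, h2]

/-- LS2c -/
theorem AA {C : Finset Γ} (hneg : ∀ s ∈ C, -s ∈ C) (_hne : ∀ s ∈ C, s ≠ -s)
    (I : Multiset Γ → ℝ) (Iz : ∀ U : Multiset Γ, U.sum ≠ 0 → I U = 0)
    (hA : ∀ F : Multiset Γ → ℝ, ∑ T ∈ TA C, F (ms T) =
      3 * (∑ c ∈ C, ∑ x ∈ C, F {c, x, -x}) - 3 * ∑ c ∈ C, F {c, c, -c}) :
    ∑ T ∈ TA C, ∑ T' ∈ TA C, I (ms T + ms T') =
      9 * (∑ x ∈ C, ∑ y ∈ C, ∑ z ∈ C, I {x, -x, y, -y, z, -z}) -
      18 * (∑ x ∈ C, ∑ y ∈ C, I {x, -x, x, -x, y, -y}) + 9 * ∑ x ∈ C, I {x, -x, x, -x, x, -x} := by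
  rw [hA (fun V => ∑ T' ∈ TA C, I (V + ms T'))]
  have h1 : ∀ c ∈ C, ∀ x ∈ C, ∑ T' ∈ TA C, I ({c, x, -x} + ms T') =
      3 * (∑ y ∈ C, I {c, -c, x, -x, y, -y}) - 3 * I {c, -c, c, -c, x, -x} := by
    intro c hc x _
    rw [AA_inner hneg I Iz hA {c, x, -x} c hc (by simp)]
    congr 2
    · refine Finset.sum_congr rfl fun y _ => ?_
      congr 1
      simp only [Multiset.insert_eq_cons, ← Multiset.singleton_add]
      abel
    · congr 1
      simp only [Multiset.insert_eq_cons, ← Multiset.singleton_add]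
      abel
  have h2 : ∀ c ∈ C, ∑ T' ∈ TA C, I ({c, c, -c} + ms T') =
      3 * (∑ y ∈ C, I {c, -c, c, -c, y, -y}) - 3 * I {c, -c, c, -c, c, -c} := by
    intro c hc
    rw [AA_inner hneg I Iz hA {c, c, -c} c hc (by simp)]
    congr 2
    · refine Finset.sum_congr rfl fun y _ => ?_
      congr 1
      simp only [Multiset.insert_eq_cons, ← Multiset.singleton_add]
      abel
    · congr 1
      simp only [Multiset.insert_eq_cons, ← Multiset.singleton_add]
      abel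
  rw [Finset.sum_congr rfl fun c hc => Finset.sum_congr rfl fun x hx => h1 c hc x hx,
    Finset.sum_congr rfl fun c hc => h2 c hc]
  simp only [Finset.sum_sub_distrib, ← Finset.mul_sum]
  ring

end Pool.Agent.N42.LS
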